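import Pool.Agent.K7.H87.EX.Stm2
import Pool.Agent.K7.H87.EX.Main

set_option autoImplicit false

/-! # EX2, job DROP -/

namespace Pool.Agent.K7.H51.EXDROP

open Pool.Agent.K7.H87.EX

section
variable {K : Type} [Group K] (N : Subgroup K) (hN : N.Normal)

theorem cj_mul (g : K) (a b : N) : cj N hN g (a * b) = cj N hN g a * cj N hN g b := by
  apply Subtype.ext
  simp [cj, mul_assoc]

theorem cj_cj (g h : K) (a : N) : cj N hN (g * h) a = cj N hN g (cj N hN h a) := by
  apply Subtype.ext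
  simp [cj, mul_assoc]

theorem cj_one' (a : N) : cj N hN 1 a = a := by
  apply Subtype.ext
  simp [cj]

end

theorem t (hHol : StHol) (hUni : StUni) (hLev : StLev) (hInv : StInv) : StDrop := by
  intro K _ N hN _ hl hr hcj hfin g hg a ha
  obtain ⟨-, -, -, hlt, -⟩ := hLev N hl hr hfin
  have hinv := hInv K N hN hl hr hcj hfin
  obtain ⟨c, hc1, hca⟩ : ∃ c : N, 1 < c ∧ (a = c ∨ a = c⁻¹) := by
    rcases lt_or_gt_of_ne ha with h | h
    · refine ⟨a⁻¹, ?_, Or.inr (inv_inv a).symm⟩
      refine lt_of_le_of_ne ?_ ?_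
      · simpa using inv_le hl hr _ _ h.le
      · intro h1
        exact ha (inv_eq_one.1 h1.symm)
    · exact ⟨a, h, Or.inl rfl⟩
  obtain ⟨φ, hφc, hadd, hmon⟩ := hHol N hl hr c hc1
  have hφ1 : φ 1 = 0 := phi_one hl hr c φ hadd
  have hBc : Bd c c := by
    refine ⟨1, ?_, by simp⟩
    have : c⁻¹ ≤ 1 := by simpa using inv_le hl hr _ _ hc1.le
    simpa using this.trans hc1.le
  have hBa : Bd c a := by
    rcases hca with h | h
    · rw [h]; exact hBc
    · rw [h]; exact bd_inv hl hr c c hBc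
  have hφa : φ a ≠ 0 := by
    rcases hca with h | h
    · rw [h, hφc]; exact one_ne_zero
    · rw [h, phi_inv hl hr c φ hadd c hBc, hφc]
      norm_num
  set D : Subgroup N :=
    { carrier := {x | Bd c x}
      mul_mem' := fun hx hy => bd_mul hl hr c _ _ hx hy
      one_mem' := bd_one hl hr c
      inv_mem' := fun hx => bd_inv hl hr c _ hx } with hD
  have hDc : Conv D := fun x y h1 h2 hy => bd_of_one_le hl hr c x y hc1.le h1 h2 hy
  have hDinv : ∀ (h : K) (b : N), Bd c b → Bd c (cj N hN h b) := fun h b hb =>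
    hinv h D hDc b hb
  set E : Subgroup N :=
    { carrier := {x | Bd c x ∧ φ x = 0}
      mul_mem' := fun {x y} hx hy =>
        ⟨bd_mul hl hr c _ _ hx.1 hy.1, by rw [hadd x y hx.1 hy.1, hx.2, hy.2, add_zero]⟩
      one_mem' := ⟨bd_one hl hr c, hφ1⟩
      inv_mem' := fun {x} hx =>
        ⟨bd_inv hl hr c _ hx.1, by rw [phi_inv hl hr c φ hadd x hx.1, hx.2, neg_zero]⟩ } with hE
  have hEc : Conv E := by
    intro x y h1 h2 hy
    have hBx := bd_of_one_le hl hr c x y hc1.le h1 h2 hy.1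
    refine ⟨hBx, le_antisymm ?_ ?_⟩
    · have := hmon x y hBx hy.1 h2
      rwa [hy.2] at this
    · have := hmon 1 x (bd_one hl hr c) hBx h1
      rwa [hφ1] at this
  -- scaling
  have hL : ∀ (h : K) (b : N), Bd c b → φ (cj N hN h b) = φ (cj N hN h c) * φ b := by
    intro h
    refine hUni N hl hr c hc1 φ (fun b => φ (cj N hN h b)) hφc hadd hmon ?_ ?_
    · intro x y hx hy
      show φ (cj N hN h (x * y)) = _
      rw [cj_mul]
      exact hadd _ _ (hDinv h x hx) (hDinv h y hy)
    · intro x y hx hy hxy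
      exact hmon _ _ (hDinv h x hx) (hDinv h y hy) (hcj h x y hxy)
  let Λ : K →* ℝ :=
    { toFun := fun h => φ (cj N hN h c)
      map_one' := by
        show φ (cj N hN 1 c) = 1
        rw [cj_one', hφc]
      map_mul' := by
        intro x y
        show φ (cj N hN (x * y) c) = φ (cj N hN x c) * φ (cj N hN y c)
        rw [cj_cj, hL x _ (hDinv y c hBc)] }
  have hΛ : Λ g = 1 := by
    have h1 : g ∈ Λ.toHomUnits.ker := Abelianization.commutator_subset_ker _ hg
    have h2 : Λ.toHomUnits g = 1 := h1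
    have h3 := congrArg Units.val h2
    simpa using h3
  have hΛ' : φ (cj N hN g c) = 1 := hΛ
  have hg1 : φ (cj N hN g a) = φ a := by
    rw [hL g a hBa, hΛ', one_mul]
  refine (hlt _ _).2 ⟨E, hEc, ?_, fun h => hφa h.2⟩
  have e1 := bd_inv hl hr c a hBa
  have e2 := hDinv g a hBa
  refine ⟨bd_mul hl hr c _ _ e1 e2, ?_⟩
  rw [hadd _ _ e1 e2, phi_inv hl hr c φ hadd a hBa, hg1]
  ring

end Pool.Agent.K7.H51.EXDROP
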